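import Pool.Agent.Lib.MP_03ceb7_al.Mg.G003

/-!
# TASK LS Cor2: groups approximated by finite groups of complex matrices

(`FiniteLinearSofic.normalize`) Given `F`, `ε` take `n`, `Δ`, `φ` for `insert 1 F` (and all products if convenient) and `ε / 2`, and put `φ' g = φ g` for `g ≠ 1`, `φ' 1 = 1`.
`φ 1 - φ 1 * φ 1 = φ 1 * (1 - φ 1)` with `φ 1` invertible, so `rank (φ 1 - 1) ≤ ε / 2 * n`. For `g = 1` or `h = 1`: `φ' (g * h) - φ' g * φ' h = 0`. For `g, h ≠ 1`, `g * h = 1`: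
`1 - φ g * φ h = (1 - φ 1) + (φ (g * h) - φ g * φ h)`, rank `≤ ε * n`. Otherwise nothing has changed.
(`integrally`) `V` from `exists_valuation`, `O = V`, `S` from `exists_integral_form`, `φ'' g = M` with `M.map V.subtype = S⁻¹ * φ' g * S` (choose; it is unique, and `φ'' 1 = 1`, since `V.subtype` is injective);
`rkL_eq_rank_map`, and multiplication by `S`, `S⁻¹` does not change ranks (`Matrix.rank_mul_eq_left_of_isUnit_det`, `Matrix.rank_mul_eq_right_of_isUnit_det`).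
(`linear`) immediate from `normalize`. (`main2`) by the characteristic `p` of `K` (`CharP.exists`, `CharP.char_is_prime_or_zero`): `main1`, `main0`.
-/

set_option autoImplicit false

universe u v w

namespace Pool.Agent.MP_03ceb7_al.LS

open Matrix in
private theorem Cor2_rank_one_sub {n : ℕ} (A : GL (Fin n) ℂ) :
    ((1 : Matrix (Fin n) (Fin n) ℂ) - A).rank =
      (((A : Matrix (Fin n) (Fin n) ℂ)) - (A : Matrix (Fin n) (Fin n) ℂ) * A).rank := by
  have h : ((A : Matrix (Fin n) (Fin n) ℂ)) - (A : Matrix (Fin n) (Fin n) ℂ) * A =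
      (A : Matrix (Fin n) (Fin n) ℂ) * (1 - A) := by
    rw [mul_sub, mul_one]
  rw [h]
  have hdet : IsUnit (A : Matrix (Fin n) (Fin n) ℂ).det :=
    (Matrix.isUnit_iff_isUnit_det _).1 A.isUnit
  exact (Matrix.rank_mul_eq_right_of_isUnit_det _ _ hdet).symm

theorem FiniteLinearSofic.normalize {G : Type u} [Group G] (hG : FiniteLinearSofic G) :
    ∃ δ : G → ℝ, (∀ g, g ≠ 1 → 0 < δ g) ∧ ∀ (F : Finset G) (ε : ℝ), 0 < ε →
    ∃ (n : ℕ) (Δ : Subgroup (GL (Fin n) ℂ)) (φ : G → GL (Fin n) ℂ),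
      0 < n ∧ Finite Δ ∧ (∀ g, φ g ∈ Δ) ∧ φ 1 = 1 ∧
      (∀ g ∈ F, ∀ h ∈ F,
        (((φ (g * h) : Matrix (Fin n) (Fin n) ℂ) - (φ g : Matrix (Fin n) (Fin n) ℂ) * φ h).rank : ℝ) ≤ ε * n) ∧
      ∀ g ∈ F, g ≠ 1 → δ g * n ≤ (((φ g : Matrix (Fin n) (Fin n) ℂ) - 1).rank : ℝ) := by
  classical
  obtain ⟨δ, hδ, H⟩ := hG
  refine ⟨δ, hδ, fun F ε hε => ?_⟩
  obtain ⟨n, Δ, φ, hn, hΔ, hφ, hmul, hne⟩ := H (insert 1 F) (ε / 2) (by linarith)
  have hn0 : (0 : ℝ) < n := by exact_mod_cast hn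
  have hε2 : ε / 2 * n ≤ ε * n := by nlinarith
  have h1 : (((1 : Matrix (Fin n) (Fin n) ℂ) - φ 1).rank : ℝ) ≤ ε / 2 * n := by
    rw [Cor2_rank_one_sub]
    have := hmul 1 (Finset.mem_insert_self _ _) 1 (Finset.mem_insert_self _ _)
    rwa [one_mul] at this
  obtain ⟨ψ, hψ1, hψ⟩ : ∃ ψ : G → GL (Fin n) ℂ, ψ 1 = 1 ∧ ∀ g, g ≠ 1 → ψ g = φ g :=
    ⟨fun g => if g = 1 then 1 else φ g, by simp, fun g hg => by simp [hg]⟩
  refine ⟨n, Δ, ψ, hn, hΔ, ?_, hψ1, ?_, ?_⟩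
  · intro g
    by_cases hg : g = 1
    · rw [hg, hψ1]; exact Δ.one_mem
    · rw [hψ g hg]; exact hφ g
  · intro g hg h hh
    have hεn : 0 ≤ ε * n := by positivity
    by_cases g1 : g = 1
    · rw [g1, one_mul, hψ1, Units.val_one, one_mul, sub_self, Matrix.rank_zero, Nat.cast_zero]
      exact hεn
    by_cases h1' : h = 1
    · rw [h1', mul_one, hψ1, Units.val_one, mul_one, sub_self, Matrix.rank_zero, Nat.cast_zero]
      exact hεn
    have hb := hmul g (Finset.mem_insert_of_mem hg) h (Finset.mem_insert_of_mem hh)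
    by_cases gh : g * h = 1
    · rw [gh, hψ1, hψ g g1, hψ h h1']
      have e : ((1 : GL (Fin n) ℂ) : Matrix (Fin n) (Fin n) ℂ) -
          (φ g : Matrix (Fin n) (Fin n) ℂ) * (φ h : Matrix (Fin n) (Fin n) ℂ) =
          (1 - (φ 1 : Matrix (Fin n) (Fin n) ℂ)) +
          ((φ (g * h) : Matrix (Fin n) (Fin n) ℂ) -
            (φ g : Matrix (Fin n) (Fin n) ℂ) * (φ h : Matrix (Fin n) (Fin n) ℂ)) := by
        rw [gh, Units.val_one]
        abel
      rw [e]
      have hr := rank_add_le' (1 - (φ 1 : Matrix (Fin n) (Fin n) ℂ))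
        ((φ (g * h) : Matrix (Fin n) (Fin n) ℂ) -
          (φ g : Matrix (Fin n) (Fin n) ℂ) * (φ h : Matrix (Fin n) (Fin n) ℂ))
      have hr' : (((1 - (φ 1 : Matrix (Fin n) (Fin n) ℂ)) +
          ((φ (g * h) : Matrix (Fin n) (Fin n) ℂ) -
            (φ g : Matrix (Fin n) (Fin n) ℂ) * (φ h : Matrix (Fin n) (Fin n) ℂ))).rank : ℝ) ≤
          ((1 - (φ 1 : Matrix (Fin n) (Fin n) ℂ)).rank : ℝ) +
          (((φ (g * h) : Matrix (Fin n) (Fin n) ℂ) -
            (φ g : Matrix (Fin n) (Fin n) ℂ) * (φ h : Matrix (Fin n) (Fin n) ℂ)).rank : ℝ) := by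
        exact_mod_cast hr
      linarith
    · rw [hψ _ gh, hψ g g1, hψ h h1']
      linarith
  · intro g hg g1
    rw [hψ g g1]
    exact hne g (Finset.mem_insert_of_mem hg) g1

private theorem Cor2_rank_conj {n : ℕ} (S : GL (Fin n) ℂ) (A : Matrix (Fin n) (Fin n) ℂ) :
    (((S⁻¹ : GL (Fin n) ℂ) : Matrix (Fin n) (Fin n) ℂ) * A * (S : Matrix (Fin n) (Fin n) ℂ)).rank
      = A.rank := by
  have hS : IsUnit (S : Matrix (Fin n) (Fin n) ℂ).det :=
    (Matrix.isUnit_iff_isUnit_det _).1 S.isUnit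
  have hS' : IsUnit ((S⁻¹ : GL (Fin n) ℂ) : Matrix (Fin n) (Fin n) ℂ).det :=
    (Matrix.isUnit_iff_isUnit_det _).1 (S⁻¹).isUnit
  rw [Matrix.rank_mul_eq_left_of_isUnit_det _ _ hS, Matrix.rank_mul_eq_right_of_isUnit_det _ _ hS']

theorem FiniteLinearSofic.integrally {G : Type u} [Group G] (hG : FiniteLinearSofic G) (p : ℕ) (hp : p.Prime) :
    IntegrallyLinearSofic p G := by
  obtain ⟨δ, hδ, H⟩ := hG.normalize
  obtain ⟨V, hV⟩ := exists_valuation p hp
  refine ⟨δ, hδ, fun F ε hε => ?_⟩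
  obtain ⟨n, Δ, φ, hn, hΔ, hφ, hφ1, hmul, hne⟩ := H F ε hε
  obtain ⟨S, hS⟩ := exists_integral_form V Δ
  have hinj : Function.Injective (V.subtype : V →+* ℂ) := Subtype.val_injective
  have hinjM : Function.Injective
      (fun M : Matrix (Fin n) (Fin n) V => M.map (V.subtype : V →+* ℂ)) :=
    Matrix.map_injective hinj
  choose M hM using fun g => hS (φ g) (hφ g)
  have hM' : ∀ g, (M g).map V.subtype = ((S⁻¹ : GL (Fin n) ℂ) : Matrix (Fin n) (Fin n) ℂ) *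
      (φ g : Matrix (Fin n) (Fin n) ℂ) * (S : Matrix (Fin n) (Fin n) ℂ) := by
    intro g
    rw [hM g]
    simp only [Units.val_mul]
  have hSS : (S : Matrix (Fin n) (Fin n) ℂ) * ((S⁻¹ : GL (Fin n) ℂ) : Matrix (Fin n) (Fin n) ℂ)
      = 1 := by
    rw [← Units.val_mul, mul_inv_cancel, Units.val_one]
  have hSS' : ((S⁻¹ : GL (Fin n) ℂ) : Matrix (Fin n) (Fin n) ℂ) * (S : Matrix (Fin n) (Fin n) ℂ)
      = 1 := by
    rw [← Units.val_mul, inv_mul_cancel, Units.val_one]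
  have hone : (1 : Matrix (Fin n) (Fin n) V).map (V.subtype : V →+* ℂ) = 1 :=
    Matrix.map_one _ (map_zero _) (map_one _)
  refine ⟨V, inferInstance, inferInstance, n, M, hV, hn, ?_, ?_, ?_⟩
  · apply hinjM
    show (M 1).map (V.subtype : V →+* ℂ) = (1 : Matrix (Fin n) (Fin n) V).map (V.subtype : V →+* ℂ)
    rw [hone, hM' 1, hφ1, Units.val_one, mul_one, hSS']
  · intro g hg h hh
    have e : ((M (g * h) - M g * M h).map (V.subtype : V →+* ℂ)) =
        ((S⁻¹ : GL (Fin n) ℂ) : Matrix (Fin n) (Fin n) ℂ) *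
        ((φ (g * h) : Matrix (Fin n) (Fin n) ℂ) - (φ g : Matrix (Fin n) (Fin n) ℂ) * φ h) *
        (S : Matrix (Fin n) (Fin n) ℂ) := by
      rw [Matrix.map_sub _ (map_sub _), Matrix.map_mul, hM', hM', hM', mul_sub, sub_mul]
      congr 1
      calc _ = ((S⁻¹ : GL (Fin n) ℂ) : Matrix (Fin n) (Fin n) ℂ) *
            (φ g : Matrix (Fin n) (Fin n) ℂ) * ((S : Matrix (Fin n) (Fin n) ℂ) *
            ((S⁻¹ : GL (Fin n) ℂ) : Matrix (Fin n) (Fin n) ℂ)) *
            (φ h : Matrix (Fin n) (Fin n) ℂ) * (S : Matrix (Fin n) (Fin n) ℂ) := by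
              simp only [mul_assoc]
        _ = _ := by rw [hSS]; simp only [mul_assoc, mul_one]
    rw [rkL_eq_rank_map hinj, e, Cor2_rank_conj]
    exact hmul g hg h hh
  · intro g hg g1
    have e : ((M g - 1).map (V.subtype : V →+* ℂ)) =
        ((S⁻¹ : GL (Fin n) ℂ) : Matrix (Fin n) (Fin n) ℂ) *
        ((φ g : Matrix (Fin n) (Fin n) ℂ) - 1) * (S : Matrix (Fin n) (Fin n) ℂ) := by
      rw [Matrix.map_sub _ (map_sub _), hone, hM', mul_sub, sub_mul, mul_one, hSS']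
    rw [rkL_eq_rank_map hinj, e, Cor2_rank_conj]
    exact hne g hg g1

theorem FiniteLinearSofic.linear {G : Type u} [Group G] (hG : FiniteLinearSofic G) : LinearSofic ℂ G := by
  obtain ⟨δ, hδ, H⟩ := hG.normalize
  refine ⟨δ, hδ, fun F ε hε => ?_⟩
  obtain ⟨n, Δ, φ, hn, hΔ, hφ, hφ1, hmul, hne⟩ := H F ε hε
  exact ⟨n, fun g => (φ g : Matrix (Fin n) (Fin n) ℂ), hn, by simp [hφ1], hmul, hne⟩

theorem main2 {G : Type u} [Group G] (hG : FiniteLinearSofic G)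
    {K : Type v} [Field K] {A : Type w} [Ring A] [Algebra K A] [Module.Finite K A]
    (x y : MonoidAlgebra A G) (hxy : x * y = 1) : y * x = 1 := by
  obtain ⟨p, hp⟩ := CharP.exists K
  rcases CharP.char_is_prime_or_zero K p with h | h
  · have : Fact p.Prime := ⟨h⟩
    exact main1 (K := K) (hG.integrally p h) x y hxy
  · subst h
    have : CharZero K := CharP.charP_to_charZero K
    exact main0 (L := ℂ) (K := K) hG.linear x y hxy

end Pool.Agent.MP_03ceb7_al.LS
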