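import Pool.Agent.Lib.MP_03ceb7_al.LS.Red

/-!
# Definitions: integrally linear sofic groups, groups approximated by finite linear groups
-/

set_option autoImplicit false

namespace Pool.Agent.MP_03ceb7_al.LS

/-- `G` is approximated, in the normalised rank metric, by matrices over commutative domains in which `p`
is not invertible (`rkL` is the rank over the field of fractions). The domain may have any characteristic
and may depend on `F` and `ε`. -/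
def IntegrallyLinearSofic (p : ℕ) (G : Type*) [Group G] : Prop :=
  ∃ δ : G → ℝ, (∀ g, g ≠ 1 → 0 < δ g) ∧ ∀ (F : Finset G) (ε : ℝ), 0 < ε →
    ∃ (O : Type) (_ : CommRing O) (_ : IsDomain O) (n : ℕ) (φ : G → Matrix (Fin n) (Fin n) O),
      ¬ IsUnit (p : O) ∧ 0 < n ∧ φ 1 = 1 ∧
      (∀ g ∈ F, ∀ h ∈ F, (rkL (φ (g * h) - φ g * φ h) : ℝ) ≤ ε * n) ∧
      ∀ g ∈ F, g ≠ 1 → δ g * n ≤ (rkL (φ g - 1) : ℝ)

/-- `G` is linear sofic over the field `L`. -/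
def LinearSofic (L : Type) [Field L] (G : Type*) [Group G] : Prop :=
  ∃ δ : G → ℝ, (∀ g, g ≠ 1 → 0 < δ g) ∧ ∀ (F : Finset G) (ε : ℝ), 0 < ε →
    ∃ (n : ℕ) (φ : G → Matrix (Fin n) (Fin n) L), 0 < n ∧ φ 1 = 1 ∧
      (∀ g ∈ F, ∀ h ∈ F, ((φ (g * h) - φ g * φ h).rank : ℝ) ≤ ε * n) ∧
      ∀ g ∈ F, g ≠ 1 → δ g * n ≤ ((φ g - 1).rank : ℝ)

/-- `G` is approximated, in the normalised rank metric, by finite groups of complex matrices. -/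
def FiniteLinearSofic (G : Type*) [Group G] : Prop :=
  ∃ δ : G → ℝ, (∀ g, g ≠ 1 → 0 < δ g) ∧ ∀ (F : Finset G) (ε : ℝ), 0 < ε →
    ∃ (n : ℕ) (Δ : Subgroup (GL (Fin n) ℂ)) (φ : G → GL (Fin n) ℂ),
      0 < n ∧ Finite Δ ∧ (∀ g, φ g ∈ Δ) ∧
      (∀ g ∈ F, ∀ h ∈ F,
        (((φ (g * h) : Matrix (Fin n) (Fin n) ℂ) - (φ g : Matrix (Fin n) (Fin n) ℂ) * φ h).rank : ℝ) ≤ ε * n) ∧
      ∀ g ∈ F, g ≠ 1 → δ g * n ≤ (((φ g : Matrix (Fin n) (Fin n) ℂ) - 1).rank : ℝ)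

/-- `G` is hyperlinear (the definition of the problem) through finite groups of unitary matrices all of
whose traces are rational. -/
def RationallyHyperlinear (G : Type*) [Group G] : Prop :=
  ∀ (F : Finset G) (ε : ℝ), 0 < ε →
    ∃ n : ℕ, 0 < n ∧ ∃ (Δ : Subgroup (Matrix.unitaryGroup (Fin n) ℂ)) (φ : G → Matrix (Fin n) (Fin n) ℂ),
      Finite Δ ∧ (∀ u ∈ Δ, ∃ q : ℚ, Matrix.trace (u : Matrix (Fin n) (Fin n) ℂ) = (q : ℂ)) ∧
      (∀ g, ∃ u ∈ Δ, φ g = (u : Matrix (Fin n) (Fin n) ℂ)) ∧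
      (∀ g ∈ F, ∀ h ∈ F, ∑ i, ∑ j, ‖(φ (g * h) - φ g * φ h) i j‖ ^ 2 < ε * (n : ℝ)) ∧
      (∀ g ∈ F, g ≠ 1 → ‖Matrix.trace (φ g)‖ < ε * (n : ℝ))

end Pool.Agent.MP_03ceb7_al.LS
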