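import Pool.Agent.Lib.MP_03ceb7_al.Strebel

/-!
# TASK LS Ind: congruence kernels are locally `p`-indicable

(`exists_hom`) Let `P ≠ ⊤` be a subgroup of the group `M` which contains all commutators and all `p`-th powers. Then `P` is normal (`g x g⁻¹ = [g, x] x`) and `M ⧸ P` is commutative with
`q ^ p = 1`, so `Additive (M ⧸ P)` is a vector space over `ZMod p` (`AddCommGroup.zmodModule`), not `0`, so it has a nonzero functional (`Module.Dual`,
`exists_dual_forall_apply_eq_zero_iff`, `Module.forall_dual_apply_eq_zero_iff`, or a basis); compose with the quotient map.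
(`indicable_of_nakayama`) Let `M ≤ N` be finitely generated, generated by `h k`, `k : Fin r` (number a finite generating set), and suppose that all `χ : M →* Multiplicative (ZMod p)` are trivial; show `M = ⊥`.
Write `D w = ρ w - 1`. For a left ideal `X` of `S` (a subset closed under `+` and left multiplication, containing `0`; we need `X = S` and `X = J`)
put `L X = {s | ∃ C : Fin r → S, (∀ k, C k ∈ X) ∧ s = ∑ k, C k * D (h k)}`. It is closed under `+`, negatives and left multiplication, so `{w : G | D w ∈ L X}` is a subgroup: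
`D (u * v) = ρ u * D v + D u`, `D (u⁻¹) = - ρ u⁻¹ * D u`. Since `D (h k) ∈ L S`, `D w ∈ L S` for all `w ∈ M`. For `u, v ∈ M`:
`D (u v u⁻¹ v⁻¹) = (1 - ρ (u v u⁻¹)) * D u + (ρ u - ρ (u v u⁻¹ v⁻¹)) * D v`, both coefficients are in `J` (`hN`; `ρ u - ρ w = D u - D w`), and
`D (u ^ p) = (∑ j ∈ range p, ρ u ^ j) * D u` (`geom_sum_mul`), `∑ j ∈ range p, ρ u ^ j = p + ∑ j ∈ range p, (ρ (u ^ j) - 1) ∈ J`. Multiply the expression of `D u`, `D v` in `L S` from the left by an
element of `J`: in `L J` (`hr`). So the subgroup of the `w ∈ M` with `D w ∈ L J` contains the commutators and the `p`-th powers of `M`; by `exists_hom` it is `M`. So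
`D (h k) = ∑ l, B k l * D (h l)` with `B k l ∈ J`; `hnak`: `D (h k) = 0`, `ρ (h k) = 1 = ρ 1`, `h k = 1`, `M = ⊥`.
-/

set_option autoImplicit false

namespace Pool.Agent.MP_03ceb7_al.LS

private theorem dual_aux {p : ℕ} [Fact p.Prime] {A : Type*} [AddCommGroup A] [Module (ZMod p) A] (a : A)
    (ha : a ≠ 0) : ∃ f : A →+ ZMod p, f a ≠ 0 := by
  obtain ⟨φ, hφ⟩ : ∃ φ : Module.Dual (ZMod p) A, φ a ≠ 0 := by
    by_contra hcon
    push Not at hcon
    exact ha ((Module.forall_dual_apply_eq_zero_iff (ZMod p) _).1 hcon)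
  exact ⟨φ.toAddMonoidHom, hφ⟩

private theorem dual_aux' {p : ℕ} [Fact p.Prime] {A : Type*} [AddCommGroup A] (hz : ∀ x : A, p • x = 0) (a : A)
    (ha : a ≠ 0) : ∃ f : A →+ ZMod p, f a ≠ 0 := by
  let _ : Module (ZMod p) A := AddCommGroup.zmodModule hz
  exact dual_aux a ha

private theorem exists_dual {A : Type*} [CommGroup A] (p : ℕ) [Fact p.Prime] (hz : ∀ x : A, x ^ p = 1) (a : A)
    (ha : a ≠ 1) : ∃ χ : A →* Multiplicative (ZMod p), χ a ≠ 1 := by
  have hz' : ∀ x : Additive A, p • x = 0 := by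
    intro x
    apply Additive.toMul.injective
    rw [toMul_nsmul, toMul_zero, hz]
  have hv : Additive.ofMul a ≠ 0 := fun h => ha (Additive.ofMul.injective h)
  obtain ⟨φ, hφ⟩ := dual_aux' hz' (Additive.ofMul a) hv
  let χ : A →* Multiplicative (ZMod p) :=
    { toFun := fun m => Multiplicative.ofAdd (φ (Additive.ofMul m))
      map_one' := by
        rw [ofMul_one, map_zero, ofAdd_zero]
      map_mul' := by
        intro a b
        rw [ofMul_mul, map_add, ofAdd_add] }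
  refine ⟨χ, ?_⟩
  intro h
  apply hφ
  exact Multiplicative.ofAdd.injective h

theorem exists_hom (p : ℕ) [Fact p.Prime] {M : Type*} [Group M] (P : Subgroup M) (hP : P ≠ ⊤)
    (hcomm : ∀ u v : M, u * v * u⁻¹ * v⁻¹ ∈ P) (hpow : ∀ u : M, u ^ p ∈ P) :
    ∃ χ : M →* Multiplicative (ZMod p), χ ≠ 1 := by
  have hN : P.Normal := by
    constructor
    intro x hx g
    have h := P.mul_mem (hcomm g x) hx
    have e : g * x * g⁻¹ * x⁻¹ * x = g * x * g⁻¹ := by group
    rwa [e] at h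
  obtain ⟨u, hu⟩ : ∃ u : M, u ∉ P := by
    by_contra hcon
    push Not at hcon
    exact hP ((Subgroup.eq_top_iff' P).2 hcon)
  let _ : CommGroup (M ⧸ P) :=
    { (inferInstance : Group (M ⧸ P)) with
      mul_comm := by
        intro a b
        induction a using QuotientGroup.induction_on with
        | H a =>
          induction b using QuotientGroup.induction_on with
          | H b =>
            rw [← QuotientGroup.mk_mul, ← QuotientGroup.mk_mul, QuotientGroup.eq]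
            have h := hcomm b⁻¹ a⁻¹
            have e : b⁻¹ * a⁻¹ * b⁻¹⁻¹ * a⁻¹⁻¹ = (a * b)⁻¹ * (b * a) := by group
            rwa [e] at h }
  have hz : ∀ x : M ⧸ P, x ^ p = 1 := by
    intro x
    obtain ⟨a, rfl⟩ := QuotientGroup.mk_surjective x
    rw [← QuotientGroup.mk_pow, QuotientGroup.eq_one_iff]
    exact hpow a
  have hu' : (u : M ⧸ P) ≠ 1 := by
    intro h
    exact hu ((QuotientGroup.eq_one_iff u).1 h)
  obtain ⟨χ, hχ⟩ := exists_dual p hz (u : M ⧸ P) hu'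
  refine ⟨χ.comp (QuotientGroup.mk' P), ?_⟩
  intro h
  apply hχ
  have h2 : (χ.comp (QuotientGroup.mk' P)) u = 1 := by rw [h]; rfl
  exact h2

/-- The set of left combinations of the elements `ρ (h k) - 1` with coefficients in `X`. -/
private def L {G : Type*} [Group G] {S : Type*} [Ring S] (ρ : G →* S) {r : ℕ} (h : Fin r → G) (X : Set S) : Set S :=
  {s | ∃ C : Fin r → S, (∀ k, C k ∈ X) ∧ s = ∑ k, C k * (ρ (h k) - 1)}

private theorem L_add {G : Type*} [Group G] {S : Type*} [Ring S] (ρ : G →* S) {r : ℕ} (h : Fin r → G) (X : Set S)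
    (hadd : ∀ a ∈ X, ∀ b ∈ X, a + b ∈ X) {a b : S} (ha : a ∈ L ρ h X) (hb : b ∈ L ρ h X) : a + b ∈ L ρ h X := by
  obtain ⟨C, hC, rfl⟩ := ha
  obtain ⟨C', hC', rfl⟩ := hb
  refine ⟨fun k => C k + C' k, fun k => hadd _ (hC k) _ (hC' k), ?_⟩
  rw [← Finset.sum_add_distrib]
  exact Finset.sum_congr rfl fun k _ => (add_mul _ _ _).symm

private theorem L_mul {G : Type*} [Group G] {S : Type*} [Ring S] (ρ : G →* S) {r : ℕ} (h : Fin r → G) (X Y Z : Set S)
    (hm : ∀ a ∈ X, ∀ b ∈ Y, a * b ∈ Z) {a b : S} (ha : a ∈ X) (hb : b ∈ L ρ h Y) : a * b ∈ L ρ h Z := by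
  obtain ⟨C, hC, rfl⟩ := hb
  refine ⟨fun k => a * C k, fun k => hm _ ha _ (hC k), ?_⟩
  rw [Finset.mul_sum]
  exact Finset.sum_congr rfl fun k _ => (mul_assoc _ _ _).symm

/-- The subgroup of all `w` with `ρ w - 1` in `L X`. -/
private def LG {G : Type*} [Group G] {S : Type*} [Ring S] (ρ : G →* S) {r : ℕ} (h : Fin r → G) (X : Set S)
    (h0 : (0 : S) ∈ X) (hadd : ∀ a ∈ X, ∀ b ∈ X, a + b ∈ X) (hl : ∀ a : S, ∀ b ∈ X, a * b ∈ X) : Subgroup G where
  carrier := {w | ρ w - 1 ∈ L ρ h X}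
  mul_mem' := by
    intro u v hu hv
    have e : ρ (u * v) - 1 = ρ u * (ρ v - 1) + (ρ u - 1) := by
      rw [map_mul]; noncomm_ring
    show ρ (u * v) - 1 ∈ L ρ h X
    rw [e]
    exact L_add ρ h X hadd (L_mul ρ h Set.univ X X (fun a _ b hb => hl a b hb) (Set.mem_univ _) hv) hu
  one_mem' := by
    show ρ 1 - 1 ∈ L ρ h X
    refine ⟨fun _ => 0, fun _ => h0, ?_⟩
    simp
  inv_mem' := by
    intro u hu
    have e : ρ u⁻¹ - 1 = (- ρ u⁻¹) * (ρ u - 1) := by
      have h1 : ρ u⁻¹ * ρ u = 1 := by rw [← map_mul, inv_mul_cancel, map_one]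
      rw [neg_mul, mul_sub, h1, mul_one]; abel
    show ρ u⁻¹ - 1 ∈ L ρ h X
    rw [e]
    exact L_mul ρ h Set.univ X X (fun a _ b hb => hl a b hb) (Set.mem_univ _) hu

private theorem mem_LG {G : Type*} [Group G] {S : Type*} [Ring S] (ρ : G →* S) {r : ℕ} (h : Fin r → G) (X : Set S)
    (h0 : (0 : S) ∈ X) (hadd : ∀ a ∈ X, ∀ b ∈ X, a + b ∈ X) (hl : ∀ a : S, ∀ b ∈ X, a * b ∈ X) (w : G) :
    w ∈ LG ρ h X h0 hadd hl ↔ ρ w - 1 ∈ L ρ h X := Iff.rfl

theorem indicable_of_nakayama {G : Type*} [Group G] {S : Type*} [Ring S] {p : ℕ} [Fact p.Prime] (ρ : G →* S)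
    (hρ : Function.Injective ρ) (J : Set S) (hp : (p : S) ∈ J) (hadd : ∀ a ∈ J, ∀ b ∈ J, a + b ∈ J)
    (hl : ∀ a : S, ∀ b ∈ J, a * b ∈ J) (hr : ∀ a ∈ J, ∀ b : S, a * b ∈ J)
    (hnak : ∀ (r : ℕ) (B : Fin r → Fin r → S) (D : Fin r → S), (∀ k l, B k l ∈ J) → (∀ k, D k = ∑ l, B k l * D l) →
      ∀ k, D k = 0)
    (N : Subgroup G) (hN : ∀ g ∈ N, ρ g - 1 ∈ J) : LocallyIndicable p N := by
  intro M hMN hMfg hMne
  by_contra hcon
  apply hMne
  have h0 : (0 : S) ∈ J := by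
    have := hl 0 _ hp
    rwa [zero_mul] at this
  have hneg : ∀ a ∈ J, -a ∈ J := by
    intro a ha
    have := hl (-1) a ha
    rwa [neg_one_mul] at this
  have hsub : ∀ a ∈ J, ∀ b ∈ J, a - b ∈ J := by
    intro a ha b hb
    rw [sub_eq_add_neg]
    exact hadd _ ha _ (hneg _ hb)
  obtain ⟨T, hT⟩ := hMfg
  let r := T.card
  let e : Fin r ≃ T := T.equivFin.symm
  let h : Fin r → G := fun k => (e k : G)
  have hgen : Subgroup.closure (Set.range h) = M := by
    rw [← hT]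
    congr 1
    ext x
    constructor
    · rintro ⟨k, rfl⟩
      exact (e k).2
    · intro hx
      exact ⟨e.symm ⟨x, hx⟩, by simp [h]⟩
  have hhM : ∀ k, h k ∈ M := by
    intro k
    rw [← hgen]
    exact Subgroup.subset_closure ⟨k, rfl⟩
  -- all elements of `M` lie in the subgroup for `X = S`
  have hMS : M ≤ LG ρ h Set.univ (Set.mem_univ _) (fun _ _ _ _ => Set.mem_univ _)
      (fun _ _ _ => Set.mem_univ _) := by
    rw [← hgen, Subgroup.closure_le]
    rintro _ ⟨k, rfl⟩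
    refine ⟨fun l => if l = k then 1 else 0, fun _ => Set.mem_univ _, ?_⟩
    simp
  have hJmul : ∀ a ∈ J, ∀ w ∈ M, a * (ρ w - 1) ∈ L ρ h J := by
    intro a ha w hw
    exact L_mul ρ h J Set.univ J (fun a ha b _ => hr a ha b) ha (hMS hw)
  set Q : Subgroup G := LG ρ h J h0 hadd hl with hQ
  have hcomm : ∀ u ∈ M, ∀ v ∈ M, u * v * u⁻¹ * v⁻¹ ∈ Q := by
    intro u hu v hv
    have h1 : u * v * u⁻¹ ∈ M := M.mul_mem (M.mul_mem hu hv) (M.inv_mem hu)
    have h2 : u * v * u⁻¹ * v⁻¹ ∈ M := M.mul_mem h1 (M.inv_mem hv)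
    show ρ (u * v * u⁻¹ * v⁻¹) - 1 ∈ L ρ h J
    have e1 : ρ (u * v * u⁻¹ * v⁻¹) - 1
        = (1 - ρ (u * v * u⁻¹)) * (ρ u - 1) + (ρ u - ρ (u * v * u⁻¹ * v⁻¹)) * (ρ v - 1) := by
      have a1 : ρ (u * v * u⁻¹) * ρ u = ρ u * ρ v := by
        rw [← map_mul, ← map_mul]; congr 1; group
      have a2 : ρ (u * v * u⁻¹ * v⁻¹) * ρ v = ρ (u * v * u⁻¹) := by
        rw [← map_mul]; congr 1; group
      have b1 : (1 - ρ (u * v * u⁻¹)) * (ρ u - 1)
          = ρ u - 1 - ρ (u * v * u⁻¹) * ρ u + ρ (u * v * u⁻¹) := by noncomm_ring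
      have b2 : (ρ u - ρ (u * v * u⁻¹ * v⁻¹)) * (ρ v - 1)
          = ρ u * ρ v - ρ u - ρ (u * v * u⁻¹ * v⁻¹) * ρ v + ρ (u * v * u⁻¹ * v⁻¹) := by noncomm_ring
      rw [b1, b2, a1, a2]
      abel
    rw [e1]
    refine L_add ρ h J hadd (hJmul _ ?_ _ hu) (hJmul _ ?_ _ hv)
    · have := hneg _ (hN _ (hMN h1))
      rwa [neg_sub] at this
    · have := hsub _ (hN _ (hMN hu)) _ (hN _ (hMN h2))
      rwa [sub_sub_sub_cancel_right] at this
  have hpow : ∀ u ∈ M, u ^ p ∈ Q := by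
    intro u hu
    show ρ (u ^ p) - 1 ∈ L ρ h J
    rw [map_pow, ← geom_sum_mul]
    refine hJmul _ ?_ _ hu
    have e1 : ∑ j ∈ Finset.range p, ρ u ^ j = (p : S) + ∑ j ∈ Finset.range p, (ρ (u ^ j) - 1) := by
      rw [Finset.sum_sub_distrib]
      simp [map_pow]
    rw [e1]
    refine hadd _ hp _ ?_
    have hsum : ∀ s : Finset ℕ, ∑ j ∈ s, (ρ (u ^ j) - 1) ∈ J := by
      intro s
      classical
      induction s using Finset.induction_on with
      | empty => simpa using h0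
      | insert a s ha ih =>
        rw [Finset.sum_insert ha]
        exact hadd _ (hN _ (hMN (M.pow_mem hu a))) _ ih
    exact hsum _
  have htop : Q.subgroupOf M = ⊤ := by
    by_contra hne
    apply hcon
    exact exists_hom p (Q.subgroupOf M) hne
      (fun u v => by
        rw [Subgroup.mem_subgroupOf]
        exact hcomm _ u.2 _ v.2)
      (fun u => by
        rw [Subgroup.mem_subgroupOf]
        exact hpow _ u.2)
  have hMQ : M ≤ Q := Subgroup.subgroupOf_eq_top.1 htop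
  have hB : ∀ k, ∃ C : Fin r → S, (∀ l, C l ∈ J) ∧ ρ (h k) - 1 = ∑ l, C l * (ρ (h l) - 1) :=
    fun k => hMQ (hhM k)
  choose B hBJ hBe using hB
  have hz := hnak r B (fun k => ρ (h k) - 1) (fun k l => hBJ k l) hBe
  have hk : ∀ k, h k = 1 := by
    intro k
    apply hρ
    rw [map_one]
    exact sub_eq_zero.1 (hz k)
  rw [← hgen, eq_bot_iff, Subgroup.closure_le]
  rintro _ ⟨k, rfl⟩
  exact hk k

end Pool.Agent.MP_03ceb7_al.LS
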