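import Pool.Agent.Lib.MP_03ceb7_al.LS.Rk

/-!
# TASK LS Red: reduction of matrices over a domain, and the Nakayama argument

`rkL A` is the rank of `A` over the field of fractions of the domain `O`; `π : O →+* κ` is a surjection onto a field.
(`rkL_...`) map the matrices to the field of fractions, use the lemmas of `Rk`.
(`rk_red_le`) `exists_unfactor` for `A.map π` gives `P, Q` over `κ`; lift them to `P', Q'` over `O` (choose preimages entrywise). The determinant of
`P' * A * Q'` (an `r × r` matrix) is mapped to `1` by `π` (`RingHom.map_det`), so it is not `0`, and so the image of `P' * A * Q'` over the field of fractions has rank `r`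
(`Matrix.rank_of_det_ne_zero` or `rank_of_isUnit`), which is `≤ rkL A` (`rank_mul_le_left`, `rank_mul_le_right`).
(`nakayama`) `exists_factor` for `B.map π`: `B.map π = C * E` with middle index `Fin s`, `s = (B.map π).rank`. Lift: `C'`, `E'` over `O`, `B₀ = B - C' * E'` has
`B₀.map π = 0`. `(1 - B₀) * D = C' * (E' * D) + R`. `det (1 - B₀)` is mapped to `1`, so it is not `0`; over the field of fractions
`rank D = rank ((1 - B₀) * D)` (`Matrix.rank_mul_eq_right_of_det_ne_zero`) `≤ rank C' + rank R ≤ s + rank R` (`rank_le_width`).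
(`nakayama_blocks`) apply `nakayama` to the block matrices with index types `Fin r × Fin n` and `Fin n`:
`BB (k, a) (l, b) = B k l a b`, `DD (k, a) b = D k a b`, `RR = DD - BB * DD`, `RR (k, a) b = (D k - ∑ l, B k l * D l) a b`.
`BB = ∑ k, ∑ l, E k * B k l * (E l)ᵀ` with `E k : Matrix (Fin r × Fin n) (Fin n) _`, `E k x b = if x = (k, b) then 1 else 0`; so `rank BB ≤ ∑ ∑ rank (B k l)`, the same for
`RR = ∑ k, E k * R k`; `D j = (E j)ᵀ * DD`.
-/

set_option autoImplicit false

open Matrix

namespace Pool.Agent.MP_03ceb7_al.LS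

variable {m n : Type*} [Fintype m] [Fintype n] [DecidableEq m] [DecidableEq n]
variable {O : Type*} [CommRing O] [IsDomain O] {κ : Type*} [Field κ]

/-- The rank of a matrix over a domain: the rank over the field of fractions. -/
noncomputable def rkL {m n : Type*} [Fintype n] {O : Type*} [CommRing O] (A : Matrix m n O) : ℕ :=
  (A.map (algebraMap O (FractionRing O))).rank

omit [Fintype m] [DecidableEq m] [DecidableEq n] in
theorem rkL_zero : rkL (0 : Matrix m n O) = 0 := by
  unfold rkL
  rw [Matrix.map_zero _ (map_zero _), rank_zero]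

omit [Fintype m] [DecidableEq m] [DecidableEq n] in
theorem rkL_add_le (A B : Matrix m n O) : rkL (A + B) ≤ rkL A + rkL B := by
  unfold rkL
  rw [Matrix.map_add _ (map_add _)]
  exact rank_add_le' _ _

omit [Fintype m] [DecidableEq m] [DecidableEq n] in
theorem rkL_neg (A : Matrix m n O) : rkL (-A) = rkL A := by
  unfold rkL
  rw [Matrix.map_neg _ (map_neg _)]
  exact rank_neg' _

omit [Fintype m] [DecidableEq m] [DecidableEq n] in
theorem rkL_mul_le_left {o : Type*} [Fintype o] (A : Matrix m n O) (B : Matrix n o O) : rkL (A * B) ≤ rkL A := by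
  unfold rkL
  rw [Matrix.map_mul]
  exact rank_mul_le_left _ _

omit [Fintype m] [DecidableEq m] [DecidableEq n] in
theorem rkL_mul_le_right {o : Type*} [Fintype o] (A : Matrix m n O) (B : Matrix n o O) : rkL (A * B) ≤ rkL B := by
  unfold rkL
  rw [Matrix.map_mul]
  exact rank_mul_le_right _ _

omit [IsDomain O] in
private theorem Red_lift {a b : Type*} {π : O →+* κ} (hπ : Function.Surjective π) (P : Matrix a b κ) :
    ∃ P' : Matrix a b O, P'.map π = P := by
  refine ⟨P.map (Function.surjInv hπ), ?_⟩
  ext i j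
  simp [Function.surjInv_eq hπ]

omit [IsDomain O] in
private theorem Red_det {a : Type*} [Fintype a] [DecidableEq a] {π : O →+* κ} {W : Matrix a a O}
    (h : W.map π = 1) : (W.map (algebraMap O (FractionRing O))).det ≠ 0 := by
  have h1 : π W.det = 1 := by
    rw [RingHom.map_det, RingHom.mapMatrix_apply, h, det_one]
  have h2 : W.det ≠ 0 := by
    intro h0
    rw [h0, map_zero] at h1
    exact zero_ne_one h1
  have h3 : (W.map (algebraMap O (FractionRing O))).det = algebraMap O (FractionRing O) W.det := by
    rw [RingHom.map_det, RingHom.mapMatrix_apply]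
  rw [h3]
  intro h0
  exact h2 ((map_eq_zero_iff _ (IsFractionRing.injective O (FractionRing O))).mp h0)

theorem rk_red_le {π : O →+* κ} (hπ : Function.Surjective π) (A : Matrix m m O) : (A.map π).rank ≤ rkL A := by
  obtain ⟨P, Q, hPQ⟩ := exists_unfactor (A.map π)
  obtain ⟨P', hP'⟩ := Red_lift hπ P
  obtain ⟨Q', hQ'⟩ := Red_lift hπ Q
  have h1 : (P' * A * Q').map π = 1 := by
    rw [Matrix.map_mul, Matrix.map_mul, hP', hQ', hPQ]
  have h2 := Red_det h1
  have h3 := rank_of_det_ne_zero h2
  rw [Fintype.card_fin] at h3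
  unfold rkL
  rw [Matrix.map_mul, Matrix.map_mul] at h3
  calc (A.map π).rank = _ := h3.symm
    _ ≤ _ := rank_mul_le_left _ _
    _ ≤ _ := rank_mul_le_right _ _

theorem nakayama {π : O →+* κ} (hπ : Function.Surjective π) (B : Matrix m m O) (D R : Matrix m n O) (h : D = B * D + R) :
    rkL D ≤ (B.map π).rank + rkL R := by
  obtain ⟨C, E, hCE⟩ := exists_factor (B.map π)
  obtain ⟨C', hC'⟩ := Red_lift hπ C
  obtain ⟨E', hE'⟩ := Red_lift hπ E
  have h1 : (1 - (B - C' * E')).map π = 1 := by
    rw [Matrix.map_sub _ (map_sub _), Matrix.map_sub _ (map_sub _), Matrix.map_mul, hC', hE', ← hCE,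
      sub_self, sub_zero, Matrix.map_one _ (map_zero _) (map_one _)]
  have h2 := Red_det h1
  have h3 : (1 - (B - C' * E')) * D = R + C' * (E' * D) := by
    have h4 : D - B * D = R := by
      nth_rewrite 1 [h]
      rw [add_sub_cancel_left]
    rw [Matrix.sub_mul, Matrix.sub_mul, Matrix.one_mul, Matrix.mul_assoc, ← h4]
    abel
  unfold rkL
  rw [← rank_mul_eq_right_of_det_ne_zero _ (D.map (algebraMap O (FractionRing O))) h2,
    ← Matrix.map_mul, h3, Matrix.map_add _ (map_add _), Matrix.map_mul (L := C') (M := E' * D)]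
  refine (rank_add_le' _ _).trans ?_
  rw [add_comm]
  refine Nat.add_le_add ((rank_mul_le_left _ _).trans ?_) le_rfl
  have h5 := rank_le_card_width (C'.map (algebraMap O (FractionRing O)))
  rw [Fintype.card_fin] at h5
  exact h5

private theorem Red_sum {a b ι : Type*} [Fintype b] (s : Finset ι) (A : ι → Matrix a b O) :
    rkL (∑ i ∈ s, A i) ≤ ∑ i ∈ s, rkL (A i) := by
  classical
  induction s using Finset.induction_on with
  | empty => rw [Finset.sum_empty, Finset.sum_empty, rkL_zero]
  | insert i s hi ih =>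
    rw [Finset.sum_insert hi, Finset.sum_insert hi]
    exact (rkL_add_le _ _).trans (Nat.add_le_add_left ih _)

private def Red_E (S : Type*) [CommRing S] (r n : ℕ) (k : Fin r) : Matrix (Fin r × Fin n) (Fin n) S :=
  Matrix.of fun x b => if x = (k, b) then 1 else 0

private theorem Red_E_mul {S : Type*} [CommRing S] {r n : ℕ} {c : Type*} (k : Fin r) (X : Matrix (Fin n) c S)
    (x : Fin r × Fin n) (b : c) : (Red_E S r n k * X : Matrix (Fin r × Fin n) c S) x b = if x.1 = k then X x.2 b else 0 := by
  rw [Matrix.mul_apply]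
  obtain ⟨x1, x2⟩ := x
  by_cases h : x1 = k
  · subst h
    rw [Finset.sum_eq_single x2]
    · simp [Red_E]
    · intro y _ hy
      simp [Red_E, hy.symm]
    · simp
  · simp [Red_E, h]

private theorem Red_mul_Et {S : Type*} [CommRing S] {r n : ℕ} {c : Type*} (k : Fin r) (X : Matrix c (Fin n) S)
    (b : c) (x : Fin r × Fin n) : (X * (Red_E S r n k)ᵀ : Matrix c (Fin r × Fin n) S) b x = if x.1 = k then X b x.2 else 0 := by
  rw [Matrix.mul_apply]
  obtain ⟨x1, x2⟩ := x
  by_cases h : x1 = k
  · subst h
    rw [Finset.sum_eq_single x2]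
    · simp [Red_E]
    · intro y _ hy
      simp [Red_E, hy.symm]
    · simp
  · simp [Red_E, h]

theorem nakayama_blocks {π : O →+* κ} (hπ : Function.Surjective π) {r n : ℕ} (B : Fin r → Fin r → Matrix (Fin n) (Fin n) O)
    (D : Fin r → Matrix (Fin n) (Fin n) O) (j : Fin r) :
    rkL (D j) ≤ (∑ k, ∑ l, ((B k l).map π).rank) + ∑ k, rkL (D k - ∑ l, B k l * D l) := by
  set BB : Matrix (Fin r × Fin n) (Fin r × Fin n) O := Matrix.of fun x y => B x.1 y.1 x.2 y.2 with hBB
  set DD : Matrix (Fin r × Fin n) (Fin n) O := Matrix.of fun x b => D x.1 x.2 b with hDD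
  have h0 := nakayama hπ BB DD (DD - BB * DD) (by rw [add_sub_cancel])
  have h1 : rkL (D j) ≤ rkL DD := by
    have e : D j = (Red_E O r n j)ᵀ * DD := by
      ext a b
      rw [Matrix.mul_apply, Finset.sum_eq_single (j, a)]
      · simp [Red_E, hDD]
      · intro y _ hy
        simp [Red_E, hy]
      · simp
    rw [e]
    exact rkL_mul_le_right _ _
  have h2 : (BB.map π).rank ≤ ∑ k, ∑ l, ((B k l).map π).rank := by
    have e : BB.map π = ∑ k, ∑ l, (Red_E κ r n k * (B k l).map π : Matrix (Fin r × Fin n) (Fin n) κ) *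
        (Red_E κ r n l)ᵀ := by
      ext x y
      rw [Matrix.sum_apply, Finset.sum_eq_single x.1]
      · rw [Matrix.sum_apply, Finset.sum_eq_single y.1]
        · rw [Red_mul_Et, if_pos rfl, Red_E_mul, if_pos rfl]
          rfl
        · intro l _ hl
          rw [Red_mul_Et, if_neg hl.symm]
        · simp
      · intro k _ hk
        rw [Matrix.sum_apply]
        refine Finset.sum_eq_zero fun l _ => ?_
        rw [Red_mul_Et]
        split_ifs
        · rw [Red_E_mul, if_neg hk.symm]
        · rfl
      · simp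
    rw [e]
    refine (rank_sum_le' _ _).trans (Finset.sum_le_sum fun k _ => ?_)
    refine (rank_sum_le' _ _).trans (Finset.sum_le_sum fun l _ => ?_)
    exact (rank_mul_le_left _ _).trans (rank_mul_le_right _ _)
  have h3 : rkL (DD - BB * DD) ≤ ∑ k, rkL (D k - ∑ l, B k l * D l) := by
    have e : DD - BB * DD = ∑ k, Red_E O r n k * (D k - ∑ l, B k l * D l) := by
      ext x b
      rw [Matrix.sum_apply, Finset.sum_eq_single x.1]
      · rw [Red_E_mul, if_pos rfl, Matrix.sub_apply, Matrix.sub_apply, Matrix.sum_apply,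
          Matrix.mul_apply, Fintype.sum_prod_type]
        simp only [Matrix.mul_apply, hBB, hDD, Matrix.of_apply]
      · intro k _ hk
        rw [Red_E_mul, if_neg hk.symm]
      · simp
    rw [e]
    refine (Red_sum _ _).trans (Finset.sum_le_sum fun k _ => ?_)
    exact rkL_mul_le_right _ _
  omega

end Pool.Agent.MP_03ceb7_al.LS
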