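import Mathlib

/-!
# TASK LS Rk: ranks of matrices over a field

(`rank_add_le'`) `rank A = finrank (range A.mulVecLin)`, `range (f + g) ≤ range f ⊔ range g`. (`exists_factor`, `exists_unfactor`) from
`Matrix.exists_rank_normal_form`: `V * A * U = (fromBlocks 1 0 0 0).submatrix e e` with `V`, `U` invertible, and `fromBlocks 1 0 0 0` is the product of the
column `(1, 0)` and the row `(1, 0)`. (`le_rank_of`) `rank_mul_le`, `rank_one`. (`rank_map_field`) `≤`: map the factorisation, `rank_mul_le_left` and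
`rank_le_width`; `≥`: map `P * A * Q = 1`. (`rank_one_sub_mul_comm`) `x ↦ B x` maps `ker (1 - A B)` injectively into `ker (1 - B A)` (if `A B x = x` and
`B x = 0` then `x = 0`), so `dim ker (1 - A B) ≤ dim ker (1 - B A)`; symmetry; rank-nullity.
(`rank_kronecker_le`) factor `M = B * C`; `a ⊗ₖ (B * C) = (a ⊗ₖ B) * (1 ⊗ₖ C)` (`Matrix.mul_kronecker_mul`), the middle index type has `card d * rank M` elements.
-/

set_option autoImplicit false

open Matrix
open scoped Kronecker

namespace Pool.Agent.MP_03ceb7_al.LS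

variable {m n o d : Type*} [Fintype m] [Fintype n] [Fintype o] [Fintype d] [DecidableEq m] [DecidableEq n] [DecidableEq d]
variable {L : Type*} [Field L]

omit [Fintype m] [DecidableEq m] [DecidableEq n] in
theorem rank_add_le' (A B : Matrix m n L) : (A + B).rank ≤ A.rank + B.rank := by
  rw [Matrix.rank, Matrix.rank, Matrix.rank]
  refine le_trans (Submodule.finrank_mono (t := LinearMap.range A.mulVecLin ⊔ LinearMap.range B.mulVecLin) ?_)
    (Submodule.finrank_add_le_finrank_add_finrank _ _)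
  rintro _ ⟨x, rfl⟩
  rw [Matrix.mulVecLin_add, LinearMap.add_apply]
  exact Submodule.add_mem_sup ⟨x, rfl⟩ ⟨x, rfl⟩

omit [Fintype m] [DecidableEq m] [DecidableEq n] in
private theorem Rk_smul_le (c : L) (A : Matrix m n L) : (c • A).rank ≤ A.rank := by
  rw [Matrix.rank, Matrix.rank]
  refine Submodule.finrank_mono ?_
  rintro _ ⟨x, rfl⟩
  exact ⟨c • x, by simp [Matrix.mulVec_smul, Matrix.smul_mulVec]⟩

omit [Fintype m] [DecidableEq m] [DecidableEq n] in
private theorem Rk_smul_eq {c : L} (hc : c ≠ 0) (A : Matrix m n L) : (c • A).rank = A.rank := by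
  refine le_antisymm (Rk_smul_le c A) ?_
  have h := Rk_smul_le c⁻¹ (c • A)
  rwa [smul_smul, inv_mul_cancel₀ hc, one_smul] at h

omit [Fintype m] [DecidableEq m] [DecidableEq n] in
theorem rank_neg' (A : Matrix m n L) : (-A).rank = A.rank := by
  have h := Rk_smul_eq (c := (-1 : L)) (neg_ne_zero.2 one_ne_zero) A
  rwa [neg_smul, one_smul] at h

omit [Fintype m] [DecidableEq m] [DecidableEq n] in
theorem rank_sub_le' (A B : Matrix m n L) : (A - B).rank ≤ A.rank + B.rank := by
  rw [sub_eq_add_neg]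
  refine (rank_add_le' A (-B)).trans ?_
  rw [rank_neg']

omit [Fintype m] [DecidableEq m] [DecidableEq n] in
theorem rank_sub_rev (A B : Matrix m n L) : (A - B).rank = (B - A).rank := by
  rw [← neg_sub B A, rank_neg']

omit [Fintype m] [DecidableEq m] [DecidableEq n] in
theorem rank_smul_le' (c : L) (A : Matrix m n L) : (c • A).rank ≤ A.rank :=
  Rk_smul_le c A

omit [Fintype m] [DecidableEq m] [DecidableEq n] in
theorem rank_smul_eq {c : L} (hc : c ≠ 0) (A : Matrix m n L) : (c • A).rank = A.rank :=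
  Rk_smul_eq hc A

omit [Fintype m] [DecidableEq m] [DecidableEq n] in
theorem rank_sum_le' {ι : Type*} (s : Finset ι) (A : ι → Matrix m n L) : (∑ i ∈ s, A i).rank ≤ ∑ i ∈ s, (A i).rank := by
  classical
  induction s using Finset.induction_on with
  | empty => simp [Matrix.rank_zero]
  | insert a s ha ih =>
    rw [Finset.sum_insert ha, Finset.sum_insert ha]
    exact (rank_add_le' _ _).trans (Nat.add_le_add_left ih _)

private theorem Rk_nf (A : Matrix m m L) :
    ∃ (V U : Matrix m m L) (B : Matrix m (Fin A.rank) L) (C : Matrix (Fin A.rank) m L),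
      IsUnit V ∧ IsUnit U ∧ V * A * U = B * C ∧ C * B = 1 := by
  obtain ⟨V, U, e, hV, hU, h⟩ := Matrix.exists_rank_normal_form A
  refine ⟨V, U, Matrix.of fun i k => if e i = Sum.inl k then 1 else 0,
    Matrix.of fun k i => if e i = Sum.inl k then 1 else 0, hV, hU, ?_, ?_⟩
  · rw [h]
    ext i j
    rw [Matrix.submatrix_apply, Matrix.mul_apply]
    simp only [Matrix.of_apply]
    rcases hi : e i with a | a <;> rcases hj : e j with b | b
    · simp [Matrix.one_apply, Sum.inl.injEq, eq_comm]
    · simp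
    · simp
    · simp
  · ext k l
    rw [Matrix.mul_apply]
    simp only [Matrix.of_apply]
    rw [Equiv.sum_comp e (fun x => (if x = Sum.inl k then (1 : L) else 0) *
      (if x = Sum.inl l then (1 : L) else 0)), Fintype.sum_sum_type]
    simp [Matrix.one_apply, Sum.inl.injEq, eq_comm]

theorem exists_factor (A : Matrix m m L) :
    ∃ (B : Matrix m (Fin A.rank) L) (C : Matrix (Fin A.rank) m L), A = B * C := by
  obtain ⟨V, U, B, C, ⟨v, rfl⟩, ⟨u, rfl⟩, h, -⟩ := Rk_nf A
  refine ⟨(↑v⁻¹ : Matrix m m L) * B, C * (↑u⁻¹ : Matrix m m L), ?_⟩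
  calc A = (↑v⁻¹ * ↑v) * A * (↑u * ↑u⁻¹ : Matrix m m L) := by
        rw [Units.inv_mul, Units.mul_inv, one_mul, mul_one]
    _ = ↑v⁻¹ * (↑v * A * ↑u) * ↑u⁻¹ := by simp only [Matrix.mul_assoc]
    _ = _ := by rw [h]; simp only [Matrix.mul_assoc]

theorem exists_unfactor (A : Matrix m m L) :
    ∃ (P : Matrix (Fin A.rank) m L) (Q : Matrix m (Fin A.rank) L), P * A * Q = 1 := by
  obtain ⟨V, U, B, C, -, -, h, h2⟩ := Rk_nf A
  refine ⟨C * V, U * B, ?_⟩
  calc C * V * A * (U * B) = C * (V * A * U) * B := by simp only [Matrix.mul_assoc]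
    _ = (C * B) * (C * B) := by rw [h]; simp only [Matrix.mul_assoc]
    _ = 1 := by rw [h2, mul_one]

omit [DecidableEq m] in
theorem le_rank_of {r : ℕ} {A : Matrix m m L} {P : Matrix (Fin r) m L} {Q : Matrix m (Fin r) L} (h : P * A * Q = 1) :
    r ≤ A.rank := by
  have h1 : (1 : Matrix (Fin r) (Fin r) L).rank = r := by
    rw [Matrix.rank_one, Fintype.card_fin]
  rw [← h] at h1
  calc r = (P * A * Q).rank := h1.symm
    _ ≤ (P * A).rank := Matrix.rank_mul_le_left _ _
    _ ≤ A.rank := Matrix.rank_mul_le_right _ _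

theorem rank_map_field {L' : Type*} [Field L'] (f : L →+* L') (A : Matrix m m L) : (A.map f).rank = A.rank := by
  refine le_antisymm ?_ ?_
  · obtain ⟨B, C, h⟩ := exists_factor A
    have h1 : A.map f = B.map f * C.map f := by
      conv_lhs => rw [h]
      exact Matrix.map_mul
    rw [h1]
    refine (Matrix.rank_mul_le_left _ _).trans ((Matrix.rank_le_card_width _).trans ?_)
    rw [Fintype.card_fin]
  · obtain ⟨P, Q, h⟩ := exists_unfactor A
    refine le_rank_of (P := P.map f) (Q := Q.map f) ?_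
    rw [← Matrix.map_mul, ← Matrix.map_mul, h]
    exact Matrix.map_one f (map_zero f) (map_one f)

private theorem Rk_ker (A B : Matrix m m L) :
    Module.finrank L (LinearMap.ker (1 - A * B).mulVecLin) ≤
      Module.finrank L (LinearMap.ker (1 - B * A).mulVecLin) := by
  have hx : ∀ x : LinearMap.ker (1 - A * B).mulVecLin, (x : m → L) = A *ᵥ (B *ᵥ (x : m → L)) := by
    intro x
    have h := x.2
    rw [LinearMap.mem_ker, Matrix.mulVecLin_apply, Matrix.sub_mulVec, Matrix.one_mulVec, sub_eq_zero,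
      ← Matrix.mulVec_mulVec] at h
    exact h
  have hmem : ∀ x : LinearMap.ker (1 - A * B).mulVecLin,
      B *ᵥ (x : m → L) ∈ LinearMap.ker (1 - B * A).mulVecLin := by
    intro x
    rw [LinearMap.mem_ker, Matrix.mulVecLin_apply, Matrix.sub_mulVec, Matrix.one_mulVec, sub_eq_zero,
      ← Matrix.mulVec_mulVec, ← hx x]
  let g : LinearMap.ker (1 - A * B).mulVecLin →ₗ[L] LinearMap.ker (1 - B * A).mulVecLin :=
    { toFun := fun x => ⟨B *ᵥ (x : m → L), hmem x⟩
      map_add' := fun x y => Subtype.ext (Matrix.mulVec_add _ _ _)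
      map_smul' := fun c x => Subtype.ext (Matrix.mulVec_smul _ _ _) }
  refine LinearMap.finrank_le_finrank_of_injective (f := g) ?_
  intro x y hxy
  have h1 : B *ᵥ (x : m → L) = B *ᵥ (y : m → L) := congrArg Subtype.val hxy
  apply Subtype.ext
  rw [hx x, hx y, h1]

private theorem Rk_le (A B : Matrix m m L) : (1 - B * A).rank ≤ (1 - A * B).rank := by
  have h1 := Rk_ker A B
  have h2 := LinearMap.finrank_range_add_finrank_ker (1 - A * B).mulVecLin
  have h3 := LinearMap.finrank_range_add_finrank_ker (1 - B * A).mulVecLin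
  rw [Matrix.rank, Matrix.rank]
  omega

theorem rank_one_sub_mul_comm (A B : Matrix m m L) : (1 - A * B).rank = (1 - B * A).rank :=
  le_antisymm (Rk_le B A) (Rk_le A B)

theorem rank_kronecker_le (a : Matrix d d L) (M : Matrix m m L) : (a ⊗ₖ M).rank ≤ Fintype.card d * M.rank := by
  obtain ⟨B, C, h⟩ := exists_factor M
  have h1 : a ⊗ₖ M = (a ⊗ₖ B) * ((1 : Matrix d d L) ⊗ₖ C) := by
    rw [← Matrix.mul_kronecker_mul, mul_one, ← h]
  rw [h1]
  refine (Matrix.rank_mul_le_left _ _).trans ((Matrix.rank_le_card_width _).trans ?_)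
  rw [Fintype.card_prod, Fintype.card_fin]

end Pool.Agent.MP_03ceb7_al.LS
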