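import Pool.Agent.Lib.MP_03ceb7_al.LS.Defs2
import Pool.Agent.Lib.MP_03ceb7_al.Mg.G002
import Pool.Agent.Lib.MP_03ceb7_al.Mg.G003

/-!
# TASK LS Cor4: groups hyperlinear through finite unitary groups with traces of bounded degree

`δ g = 1 / 4` for all `g`, `C = 2 * 4 ^ (d - 1)`. Given `F`, `ε`, use the hypothesis with `ε' = min (ε / C) (1 / 2)`. The finite group is the image of `Δ` in `GL (Fin n) ℂ`
(`Matrix.UnitaryGroup.embeddingGL` or `Unitary.toUnits`). For `g, h ∈ F` let `u = φ (g * h)⁻¹ * (φ g * φ h) ∈ Δ`. It has finite order `m` (`Δ` is finite) and all `trace (u ^ j) ∈ k`;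
`rank (φ (g * h) - φ g * φ h) = rank (φ (g * h) * (1 - u)) = rank (u - 1) ≤ C * (n - Re trace u)` (`rank_le_of_degree`) `= (C / 2) * ∑ ∑ ‖.‖ ^ 2` (`hs_sq`) `≤ ε * n`.
For `g ∈ F`, `g ≠ 1`: `2 * rank (φ g - 1) ≥ n - Re trace (φ g) ≥ (1 - ε') * n ≥ n / 2` (`le_rank_of_finite_order`).
-/

set_option autoImplicit false

open Matrix

namespace Pool.Agent.MP_03ceb7_al.LS

private theorem Cor4_pow {n : ℕ} {Δ : Subgroup (Matrix.unitaryGroup (Fin n) ℂ)} (hΔ : Finite Δ)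
    {w : Matrix.unitaryGroup (Fin n) ℂ} (hw : w ∈ Δ) :
    ∃ m : ℕ, 0 < m ∧ (w : Matrix (Fin n) (Fin n) ℂ) ^ m = 1 := by
  refine ⟨orderOf (⟨w, hw⟩ : Δ), orderOf_pos _, ?_⟩
  have h1 : w ^ orderOf (⟨w, hw⟩ : Δ) = 1 := by simp
  have h3 := congrArg (fun x : Matrix.unitaryGroup (Fin n) ℂ => (x : Matrix (Fin n) (Fin n) ℂ)) h1
  exact (SubmonoidClass.coe_pow w _).symm.trans h3

theorem DegreeHyperlinear.finite {d : ℕ} {G : Type*} [Group G] (hG : DegreeHyperlinear d G) : FiniteLinearSofic G := by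
  refine ⟨fun _ => 1 / 4, fun _ _ => by norm_num, fun F ε hε => ?_⟩
  have hC : (0 : ℝ) < 2 * 4 ^ (d - 1) := by positivity
  obtain ⟨n, hn, Δ, k, φ, hfin, hfd, hfr, htr, hφ, h1, h2⟩ :=
    hG F (min (ε / (2 * 4 ^ (d - 1))) (1 / 2)) (lt_min (div_pos hε hC) (by norm_num))
  choose u hu hφu using hφ
  have hn' : (0 : ℝ) < n := by exact_mod_cast hn
  refine ⟨n, Δ.map (Unitary.toUnits), fun g => Unitary.toUnits (u g), hn, ?_,
    fun g => Subgroup.mem_map_of_mem _ (hu g), fun g hg h hh => ?_, fun g hg hg1 => ?_⟩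
  · exact (Set.toFinite (Δ : Set (Matrix.unitaryGroup (Fin n) ℂ))).image _
  · have e1 : ((Unitary.toUnits (u (g * h)) : GL (Fin n) ℂ) : Matrix (Fin n) (Fin n) ℂ) -
        ((Unitary.toUnits (u g) : GL (Fin n) ℂ) : Matrix (Fin n) (Fin n) ℂ) *
          ((Unitary.toUnits (u h) : GL (Fin n) ℂ) : Matrix (Fin n) (Fin n) ℂ) =
        φ (g * h) - φ g * φ h := by
      rw [hφu, hφu, hφu]
      rfl
    rw [e1]
    have hw : (u (g * h))⁻¹ * (u g * u h) ∈ Δ := Δ.mul_mem (Δ.inv_mem (hu _)) (Δ.mul_mem (hu _) (hu _))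
    obtain ⟨m, hm, hwm⟩ := Cor4_pow hfin hw
    have e2 : (((u (g * h))⁻¹ * (u g * u h) : Matrix.unitaryGroup (Fin n) ℂ) : Matrix (Fin n) (Fin n) ℂ) =
        (φ (g * h))ᴴ * (φ g * φ h) := by
      rw [hφu, hφu, hφu]
      rfl
    have e3 : φ (g * h) * (φ (g * h))ᴴ = 1 := by
      rw [hφu]
      exact (Matrix.mem_unitaryGroup_iff).1 (u (g * h)).2
    have h3 := rank_le_of_degree hm k hfr hwm (fun j => by
      have h4 := htr _ (Δ.pow_mem hw j)
      simpa using h4)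
    rw [e2] at h3
    have h5 : φ (g * h) - φ g * φ h = (-φ (g * h)) * ((φ (g * h))ᴴ * (φ g * φ h) - 1) := by
      rw [mul_sub, mul_one, neg_mul, ← mul_assoc, e3, one_mul]
      abel
    have h6 : ((φ (g * h) - φ g * φ h).rank : ℝ) ≤ (((φ (g * h))ᴴ * (φ g * φ h) - 1).rank : ℝ) := by
      rw [h5]
      exact_mod_cast Matrix.rank_mul_le_right _ _
    have h7 := hs_sq (a := φ (g * h)) (b := φ g * φ h) (by rw [hφu]; exact (u (g * h)).2)
      (by rw [hφu, hφu h]; exact (u g * u h).2)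
    have h8 := h1 g hg h hh
    rw [h7] at h8
    have h9 : min (ε / (2 * 4 ^ (d - 1))) (1 / 2) * (n : ℝ) ≤ ε / (2 * 4 ^ (d - 1)) * n :=
      mul_le_mul_of_nonneg_right (min_le_left _ _) hn'.le
    have h10 : (n : ℝ) - (trace ((φ (g * h))ᴴ * (φ g * φ h))).re ≤ ε / (2 * 4 ^ (d - 1)) * n := by
      have h11 : 0 < ε / (2 * 4 ^ (d - 1)) * n := mul_pos (div_pos hε hC) hn'
      linarith
    calc ((φ (g * h) - φ g * φ h).rank : ℝ) ≤ _ := h6
      _ ≤ _ := h3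
      _ ≤ 2 * 4 ^ (d - 1) * (ε / (2 * 4 ^ (d - 1)) * n) := mul_le_mul_of_nonneg_left h10 hC.le
      _ = ε * n := by
        field_simp
  · obtain ⟨m, hm, hwm⟩ := Cor4_pow hfin (hu g)
    have h3 := le_rank_of_finite_order hm hwm
    have e1 : ((Unitary.toUnits (u g) : GL (Fin n) ℂ) : Matrix (Fin n) (Fin n) ℂ) =
        (u g : Matrix (Fin n) (Fin n) ℂ) := rfl
    rw [e1]
    have h4 := h2 g hg hg1
    rw [hφu] at h4
    have h5 : (trace (u g : Matrix (Fin n) (Fin n) ℂ)).re ≤ ‖trace (u g : Matrix (Fin n) (Fin n) ℂ)‖ :=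
      Complex.re_le_norm _
    have h6 : min (ε / (2 * 4 ^ (d - 1))) (1 / 2) * (n : ℝ) ≤ 1 / 2 * n :=
      mul_le_mul_of_nonneg_right (min_le_right _ _) hn'.le
    linarith

end Pool.Agent.MP_03ceb7_al.LS
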