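import Pool.Agent.Lib.MP_03ceb7_al.LS.Defs2
import Pool.Agent.Lib.MP_03ceb7_al.Mg.G001
import Pool.Agent.Lib.MP_03ceb7_al.Mg.G003

/-!
# TASK LS Cor5: groups hyperlinear through unitary matrices with bounded denominators

(`normalize`) take the hypothesis for `insert 1 F` and `ε' = min (ε / (2 * D ^ 4)) (1 / 2)`, and put `φ' 1 = 1`, `φ' g = φ g` for `g ≠ 1`. `D ^ 2 * (φ (g * h) - φ g * φ h) i j ∈ O` (`D * (D * x)` and sums of products; `(D : ℂ) ∈ O`), so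
the nonzero entries of `φ (g * h) - φ g * φ h` have norm `≥ 1 / D ^ 2`, and (`rank_le_sum`) its rank is `≤ D ^ 4 * ε' * n ≤ (ε / 2) * n`. `φ 1 - φ 1 * φ 1 = φ 1 * (1 - φ 1)`, `φ 1` unitary, so `rank (φ 1 - 1) ≤ (ε / 2) * n`. For `g = 1` or `h = 1`:
`φ' (g * h) - φ' g * φ' h = 0`. For `g, h ≠ 1`, `g * h = 1`: `1 - φ g * φ h = (1 - φ 1) + (φ (g * h) - φ g * φ h)`, rank `≤ ε * n`. Otherwise nothing has changed. `rank (φ g - 1) ≥ (n - Re trace (φ g)) / 2 ≥ n / 4` for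
`1 ≠ g ∈ F` (`le_rank_of_unitary`). All entries of `φ' g` are in the ring `R` of `exists_ring`.
(`DiscretelyHyperlinear.integrally`, `.linear`) `O := R`, `δ = 1 / 4`, `rkL_eq_rank_map` for the inclusion `R.subtype` (injective).
-/

set_option autoImplicit false

open Matrix

namespace Pool.Agent.MP_03ceb7_al.LS

private theorem Cor5_entry {n D : ℕ} (O : Subring ℂ) {a b c : Matrix (Fin n) (Fin n) ℂ}
    (ha : ∀ i j, (D : ℂ) * a i j ∈ O) (hb : ∀ i j, (D : ℂ) * b i j ∈ O) (hc : ∀ i j, (D : ℂ) * c i j ∈ O) (i j : Fin n) :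
    (D : ℂ) ^ 2 * (a - b * c) i j ∈ O := by
  have h1 : (D : ℂ) ^ 2 * (a - b * c) i j =
      (D : ℂ) * ((D : ℂ) * a i j) - ∑ k, ((D : ℂ) * b i k) * ((D : ℂ) * c k j) := by
    rw [Matrix.sub_apply, Matrix.mul_apply, mul_sub, Finset.mul_sum]
    congr 1
    · ring
    · exact Finset.sum_congr rfl fun k _ => by ring
  rw [h1]
  exact O.sub_mem (O.mul_mem (natCast_mem O D) (ha i j)) (O.sum_mem fun k _ => O.mul_mem (hb i k) (hc k j))

private theorem Cor5_rank {n D : ℕ} (hD : 0 < D) (O : Subring ℂ) (hO : ∀ a ∈ O, a ≠ 0 → 1 ≤ ‖a‖)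
    {a b c : Matrix (Fin n) (Fin n) ℂ}
    (ha : ∀ i j, (D : ℂ) * a i j ∈ O) (hb : ∀ i j, (D : ℂ) * b i j ∈ O) (hc : ∀ i j, (D : ℂ) * c i j ∈ O)
    {ε : ℝ} (h : ∑ i, ∑ j, ‖(a - b * c) i j‖ ^ 2 < min (ε / (2 * D ^ 4)) (1 / 2) * (n : ℝ)) :
    ((a - b * c).rank : ℝ) ≤ ε / 2 * n := by
  have hD' : (0 : ℝ) < D := by exact_mod_cast hD
  have h1 : ∀ i j, (a - b * c) i j ≠ 0 → 1 / (D : ℝ) ^ 2 ≤ ‖(a - b * c) i j‖ := by
    intro i j hne
    have h2 := hO _ (Cor5_entry O ha hb hc i j) (mul_ne_zero (pow_ne_zero 2 (by exact_mod_cast hD.ne')) hne)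
    rw [norm_mul, norm_pow, Complex.norm_natCast] at h2
    rw [div_le_iff₀ (by positivity)]
    linarith [mul_comm ((D : ℝ) ^ 2) ‖(a - b * c) i j‖]
  have h3 := rank_le_sum (c := 1 / (D : ℝ) ^ 2) (by positivity) h1
  have h4 : min (ε / (2 * D ^ 4)) (1 / 2) * (n : ℝ) ≤ ε / (2 * D ^ 4) * n :=
    mul_le_mul_of_nonneg_right (min_le_left _ _) (Nat.cast_nonneg n)
  have h5 : (1 / (D : ℝ) ^ 2) ^ 2 * ((a - b * c).rank : ℝ) ≤ ε / (2 * D ^ 4) * n := by linarith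
  have h6 : (1 / (D : ℝ) ^ 2) ^ 2 = 1 / (D : ℝ) ^ 4 := by
    rw [div_pow, one_pow, ← pow_mul]
  rw [h6, div_mul_eq_mul_div, one_mul, div_le_iff₀ (by positivity)] at h5
  have h7 : ε / (2 * (D : ℝ) ^ 4) * n * (D : ℝ) ^ 4 = ε / 2 * n := by
    field_simp
  rw [h7] at h5
  exact h5

theorem DiscretelyHyperlinear.normalize {D : ℕ} (hD : 0 < D) {G : Type*} [Group G] (hG : DiscretelyHyperlinear D G)
    (F : Finset G) (ε : ℝ) (hε : 0 < ε) :
    ∃ (R : Subring ℂ) (n : ℕ) (φ : G → Matrix (Fin n) (Fin n) ℂ), (∀ p : ℕ, p.Prime → ¬ p ∣ D → ¬ IsUnit (p : R)) ∧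
      0 < n ∧ φ 1 = 1 ∧ (∀ g i j, φ g i j ∈ R) ∧
      (∀ g ∈ F, ∀ h ∈ F, ((φ (g * h) - φ g * φ h).rank : ℝ) ≤ ε * n) ∧
      ∀ g ∈ F, g ≠ 1 → (1 / 4 : ℝ) * n ≤ ((φ g - 1).rank : ℝ) := by
  classical
  have hD' : (0 : ℝ) < D := by exact_mod_cast hD
  obtain ⟨n, hn, O, φ, hO, hφ, hmul, htr⟩ := hG (insert 1 F) (min (ε / (2 * D ^ 4)) (1 / 2))
    (lt_min (by positivity) (by norm_num))
  have hn' : (0 : ℝ) < n := by exact_mod_cast hn
  obtain ⟨R, hOR, hR, hRp⟩ := exists_ring O hO hD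
  have hrk : ∀ g ∈ insert 1 F, ∀ h ∈ insert 1 F, ((φ (g * h) - φ g * φ h).rank : ℝ) ≤ ε / 2 * n := fun g hg h hh =>
    Cor5_rank hD O hO (hφ _).2 (hφ _).2 (hφ _).2 (hmul g hg h hh)
  have h1 : ((1 - φ 1).rank : ℝ) ≤ ε / 2 * n := by
    refine le_trans ?_ (hrk 1 (Finset.mem_insert_self _ _) 1 (Finset.mem_insert_self _ _))
    rw [mul_one]
    have h2 : (φ 1)ᴴ * φ 1 = 1 := by
      have := Matrix.mem_unitaryGroup_iff'.1 (hφ 1).1
      rwa [Matrix.star_eq_conjTranspose] at this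
    have h3 : 1 - φ 1 = (φ 1)ᴴ * (φ 1 - φ 1 * φ 1) := by
      rw [mul_sub, ← mul_assoc, h2, one_mul]
    rw [h3]
    exact_mod_cast Matrix.rank_mul_le_right _ _
  have hF : ∀ g ∈ F, g ∈ insert 1 F := fun g hg => Finset.mem_insert_of_mem hg
  have hz : (0 : ℝ) ≤ ε * n := by positivity
  refine ⟨R, n, fun g => if g = 1 then 1 else φ g, hRp, hn, if_pos rfl, ?_, ?_, ?_⟩
  · intro g i j
    by_cases hg : g = 1
    · simp only [if_pos hg, Matrix.one_apply]
      split_ifs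
      · exact R.one_mem
      · exact R.zero_mem
    · simp only [if_neg hg]
      exact hR _ ((hφ g).2 i j)
  · intro g hg h hh
    by_cases hg1 : g = 1
    · subst hg1
      simp only [one_mul, if_true, sub_self, Matrix.rank_zero, Nat.cast_zero]
      exact hz
    · by_cases hh1 : h = 1
      · subst hh1
        simp only [mul_one, if_true, sub_self, Matrix.rank_zero, Nat.cast_zero]
        exact hz
      · simp only [if_neg hg1, if_neg hh1]
        by_cases hgh : g * h = 1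
        · rw [if_pos hgh]
          have h4 := hrk g (hF g hg) h (hF h hh)
          rw [hgh] at h4
          have h5 : (1 : Matrix (Fin n) (Fin n) ℂ) - φ g * φ h = (1 - φ 1) + (φ 1 - φ g * φ h) := by abel
          rw [h5]
          have h6 : (((1 - φ 1) + (φ 1 - φ g * φ h)).rank : ℝ) ≤ ((1 - φ 1).rank : ℝ) + ((φ 1 - φ g * φ h).rank : ℝ) := by
            exact_mod_cast rank_add_le' _ _
          linarith
        · rw [if_neg hgh]
          have h4 := hrk g (hF g hg) h (hF h hh)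
          linarith
  · intro g hg hg1
    simp only [if_neg hg1]
    have h4 := le_rank_of_unitary (hφ g).1
    have h5 := htr g (hF g hg) hg1
    have h6 : min (ε / (2 * (D : ℝ) ^ 4)) (1 / 2) * (n : ℝ) ≤ 1 / 2 * n :=
      mul_le_mul_of_nonneg_right (min_le_right _ _) hn'.le
    have h7 : (trace (φ g)).re ≤ ‖trace (φ g)‖ := (le_abs_self _).trans (Complex.abs_re_le_norm _)
    linarith

theorem DiscretelyHyperlinear.integrally {D : ℕ} (hD : 0 < D) {G : Type*} [Group G] (hG : DiscretelyHyperlinear D G) (p : ℕ)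
    (hp : p.Prime) (hpD : ¬ p ∣ D) : IntegrallyLinearSofic p G := by
  refine ⟨fun _ => 1 / 4, fun g _ => by norm_num, fun F ε hε => ?_⟩
  obtain ⟨R, n, φ, hR, hn, h1, hent, hmul, hsep⟩ := hG.normalize hD F ε hε
  let ψ : G → Matrix (Fin n) (Fin n) R := fun g => Matrix.of fun i j => ⟨φ g i j, hent g i j⟩
  have hψ : ∀ g, (ψ g).map R.subtype = φ g := fun g => by
    ext i j
    rfl
  have hinj : Function.Injective (R.subtype) := Subtype.val_injective
  have hrk : ∀ A : Matrix (Fin n) (Fin n) R, rkL A = (A.map R.subtype).rank := fun A => rkL_eq_rank_map hinj A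
  refine ⟨R, inferInstance, inferInstance, n, ψ, hR p hp hpD, hn, ?_, ?_, ?_⟩
  · ext i j
    show φ 1 i j = (((1 : Matrix (Fin n) (Fin n) R) i j : R) : ℂ)
    rw [h1, Matrix.one_apply, Matrix.one_apply]
    split_ifs <;> rfl
  · intro g hg h hh
    rw [hrk]
    have h2 : (ψ (g * h) - ψ g * ψ h).map R.subtype = φ (g * h) - φ g * φ h := by
      rw [Matrix.map_sub _ (map_sub R.subtype), Matrix.map_mul, hψ, hψ, hψ]
    rw [h2]
    exact hmul g hg h hh
  · intro g hg hg1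
    rw [hrk]
    have h2 : (ψ g - 1).map R.subtype = φ g - 1 := by
      rw [Matrix.map_sub _ (map_sub R.subtype), hψ, Matrix.map_one _ (map_zero _) (map_one _)]
    rw [h2]
    exact hsep g hg hg1

theorem DiscretelyHyperlinear.linear {D : ℕ} (hD : 0 < D) {G : Type*} [Group G] (hG : DiscretelyHyperlinear D G) :
    LinearSofic ℂ G := by
  refine ⟨fun _ => 1 / 4, fun g _ => by norm_num, fun F ε hε => ?_⟩
  obtain ⟨R, n, φ, hR, hn, h1, hent, hmul, hsep⟩ := hG.normalize hD F ε hε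
  exact ⟨n, φ, hn, h1, hmul, hsep⟩

end Pool.Agent.MP_03ceb7_al.LS
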