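import Pool.Agent.Lib.MP_03ceb7_al.LS.Defs

/-!
# Definitions: two subclasses of the hyperlinear groups
-/

set_option autoImplicit false

namespace Pool.Agent.MP_03ceb7_al.LS

/-- `G` is hyperlinear (the definition of the problem) through finite groups of unitary matrices whose
traces lie in a number field of degree at most `d`; the group and the field depend on `F` and `ε`. For
`d = 1`: finite unitary groups with rational traces. -/
def DegreeHyperlinear (d : ℕ) (G : Type*) [Group G] : Prop :=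
  ∀ (F : Finset G) (ε : ℝ), 0 < ε →
    ∃ n : ℕ, 0 < n ∧ ∃ (Δ : Subgroup (Matrix.unitaryGroup (Fin n) ℂ)) (k : IntermediateField ℚ ℂ)
      (φ : G → Matrix (Fin n) (Fin n) ℂ),
      Finite Δ ∧ FiniteDimensional ℚ k ∧ Module.finrank ℚ k ≤ d ∧
      (∀ u ∈ Δ, Matrix.trace (u : Matrix (Fin n) (Fin n) ℂ) ∈ k) ∧
      (∀ g, ∃ u ∈ Δ, φ g = (u : Matrix (Fin n) (Fin n) ℂ)) ∧
      (∀ g ∈ F, ∀ h ∈ F, ∑ i, ∑ j, ‖(φ (g * h) - φ g * φ h) i j‖ ^ 2 < ε * (n : ℝ)) ∧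
      (∀ g ∈ F, g ≠ 1 → ‖Matrix.trace (φ g)‖ < ε * (n : ℝ))

/-- `G` is hyperlinear through unitary matrices whose entries, multiplied by `D`, lie in a subring of `ℂ`
in which all nonzero elements have absolute value at least `1` (for instance `ℤ`, the Gaussian integers). -/
def DiscretelyHyperlinear (D : ℕ) (G : Type*) [Group G] : Prop :=
  ∀ (F : Finset G) (ε : ℝ), 0 < ε →
    ∃ n : ℕ, 0 < n ∧ ∃ (O : Subring ℂ) (φ : G → Matrix (Fin n) (Fin n) ℂ),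
      (∀ a ∈ O, a ≠ 0 → 1 ≤ ‖a‖) ∧
      (∀ g, φ g ∈ Matrix.unitaryGroup (Fin n) ℂ ∧ ∀ i j, (D : ℂ) * φ g i j ∈ O) ∧
      (∀ g ∈ F, ∀ h ∈ F, ∑ i, ∑ j, ‖(φ (g * h) - φ g * φ h) i j‖ ^ 2 < ε * (n : ℝ)) ∧
      (∀ g ∈ F, g ≠ 1 → ‖Matrix.trace (φ g)‖ < ε * (n : ℝ))

end Pool.Agent.MP_03ceb7_al.LS
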